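import Mathlib

/-! Galois theory for the reduction to almost simple groups: from a subgroup `S` of the Galois group containing the
stabiliser of `θ` and a simple normal subgroup `T` of `S` with trivial centraliser modulo the kernel on the `S`-orbit
of `θ` to the Galois group of the minimal polynomial of `θ` over the fixed field of `S`. -/

set_option autoImplicit false

open IntermediateField Polynomial

namespace Pool.Agent.Lib.MP_7ab245_nt.Solv.GT

section
variable {K E : Type*} [Field K] [Field E] [Algebra K E] [FiniteDimensional K E] [IsGalois K E]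

/-- `S → Gal (minpoly F θ)`, `F` the fixed field of `S` -/
private theorem exists_hom (θ : E) (S : Subgroup (E ≃ₐ[K] E)) :
    ∃ π : S →* (minpoly (fixedField S) θ).Gal, Function.Surjective π ∧
      ∀ g : S, π g = 1 ↔ ∀ s ∈ S, ((g : E ≃ₐ[K] E) * s) θ = s θ := by
  classical
  set F : IntermediateField K E := fixedField S with hF
  have hfix : F.fixingSubgroup = S := fixingSubgroup_fixedField S
  have : IsGalois F E := inferInstance
  have hint : IsIntegral F θ := Algebra.IsIntegral.isIntegral θ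
  have hsplit : ((minpoly F θ).map (algebraMap F E)).Splits := Normal.splits inferInstance θ
  have : Fact ((minpoly F θ).map (algebraMap F E)).Splits := ⟨hsplit⟩
  let e1 : S ≃* F.fixingSubgroup := MulEquiv.subgroupCongr hfix.symm
  let e2 : F.fixingSubgroup ≃* (E ≃ₐ[F] E) := IntermediateField.fixingSubgroupEquiv F
  let e : S ≃* (E ≃ₐ[F] E) := e1.trans e2
  have he : ∀ (g : S) (x : E), e g x = (g : E ≃ₐ[K] E) x := fun g x => rfl
  have hp0 : minpoly F θ ≠ 0 := minpoly.ne_zero hint
  refine ⟨(Gal.restrict (minpoly F θ) E).comp e.toMonoidHom, ?_, ?_⟩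
  · rw [MonoidHom.coe_comp]
    exact (Gal.restrict_surjective (minpoly F θ) E).comp e.surjective
  · intro g
    constructor
    · intro h s hs
      have hroot : (s : E ≃ₐ[K] E) θ ∈ (minpoly F θ).rootSet E := by
        rw [mem_rootSet]
        refine ⟨hp0, ?_⟩
        have h1 : (e ⟨s, hs⟩) θ = s θ := rfl
        rw [← h1]
        have h2 : aeval ((e ⟨s, hs⟩ : E ≃ₐ[F] E).toAlgHom θ) (minpoly F θ) =
            (e ⟨s, hs⟩ : E ≃ₐ[F] E).toAlgHom (aeval θ (minpoly F θ)) :=
          aeval_algHom_apply _ _ _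
        rw [minpoly.aeval, map_zero] at h2
        exact h2
      have h1 := Gal.restrict_smul (p := minpoly F θ) (E := E) (e g) ⟨s θ, hroot⟩
      have h2 : Gal.restrict (minpoly F θ) E (e g) = 1 := h
      rw [h2, one_smul] at h1
      exact h1.symm
    · intro h
      apply Gal.galActionHom_injective (minpoly F θ) E
      rw [map_one]
      ext ⟨x, hx⟩
      change ↑(Gal.galActionHom (minpoly F θ) E (Gal.restrict (minpoly F θ) E (e g)) ⟨x, hx⟩) = x
      rw [Gal.galActionHom_restrict]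
      have hx' := (mem_rootSet.1 hx).2
      have halg : IsAlgebraic F θ := hint.isAlgebraic
      obtain ⟨σ, hσ⟩ := minpoly.exists_algEquiv_of_root' (K := F) (L := E) halg hx'
      have h3 : ((e g : E ≃ₐ[F] E) : E → E) (σ θ) = σ θ := by
        have h4 : e (e.symm σ) = σ := e.apply_symm_apply σ
        have h5 := h ((e.symm σ : S) : E ≃ₐ[K] E) (e.symm σ).2
        rw [← h4]
        exact h5
      change (e g) x = x
      rw [hσ] at h3
      exact h3

end

/-- the group theoretic part -/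
private theorem almost_simple_abs {G Γ Ω : Type*} [Group G] [Group Γ] [MulAction G Ω] (θ : Ω)
    (S T : Subgroup G) (hTS : T ≤ S)
    (hnorm : ∀ s ∈ S, ∀ t ∈ T, s * t * s⁻¹ ∈ T)
    (hsimple : ∀ R : Subgroup G, R ≤ T → (∀ t ∈ T, ∀ x ∈ R, t * x * t⁻¹ ∈ R) → R = ⊥ ∨ R = T)
    (hna : ∃ a ∈ T, ∃ b ∈ T, a * b ≠ b * a) (hmove : ∃ t ∈ T, t • θ ≠ θ)
    (hcent : ∀ g ∈ S, (∀ t ∈ T, ∀ s ∈ S, (g * t * s) • θ = (t * g * s) • θ) →
      ∀ s ∈ S, (g * s) • θ = s • θ)
    (π : S →* Γ) (hπ : Function.Surjective π)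
    (hker : ∀ g : S, π g = 1 ↔ ∀ s ∈ S, ((g : G) * s) • θ = s • θ) :
    ∃ T' : Subgroup Γ, T'.Normal ∧ IsSimpleGroup T' ∧ (¬ ∀ a b : T', a * b = b * a) ∧
      Subgroup.centralizer (T' : Set Γ) = ⊥ ∧ Nat.card (MulAut T') = Nat.card (MulAut T) := by
  classical
  let j : T →* S := Subgroup.inclusion hTS
  let ψ : T →* Γ := π.comp j
  have hψinj : Function.Injective ψ := by
    rw [injective_iff_map_eq_one]
    set R : Subgroup G := ψ.ker.map T.subtype with hR
    have hRT : R ≤ T := by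
      rintro _ ⟨x, _, rfl⟩
      exact x.2
    have hRn : ∀ t ∈ T, ∀ x ∈ R, t * x * t⁻¹ ∈ R := by
      rintro t ht _ ⟨x, hx, rfl⟩
      refine ⟨⟨t, ht⟩ * x * ⟨t, ht⟩⁻¹, ?_, by simp⟩
      exact ψ.normal_ker.conj_mem x hx ⟨t, ht⟩
    rcases hsimple R hRT hRn with h | h
    · intro a ha
      have : (a : G) ∈ R := ⟨a, ha, rfl⟩
      rw [h, Subgroup.mem_bot] at this
      exact Subtype.ext this
    · exfalso
      obtain ⟨t, ht, hne⟩ := hmove
      rw [← h] at ht
      obtain ⟨x, hx, rfl⟩ := ht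
      have h1 : π (j x) = 1 := hx
      rw [hker] at h1
      have h2 := h1 1 S.one_mem
      rw [mul_one, one_smul] at h2
      exact hne h2
  let e : T ≃* ψ.range := MonoidHom.ofInjective hψinj
  refine ⟨ψ.range, ?_, ?_, ?_, ?_, ?_⟩
  · constructor
    rintro _ ⟨t, rfl⟩ γ
    obtain ⟨s, rfl⟩ := hπ γ
    refine ⟨⟨s * t * (s : G)⁻¹, hnorm s s.2 t t.2⟩, ?_⟩
    change π _ = π s * π (j t) * (π s)⁻¹
    rw [← map_inv, ← map_mul, ← map_mul]
    congr 1
  · have hsT : IsSimpleGroup T := by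
      obtain ⟨a, ha, b, hb, hab⟩ := hna
      have : Nontrivial T := by
        refine ⟨⟨a, ha⟩, 1, ?_⟩
        intro h
        have h' : a = 1 := congrArg Subtype.val h
        apply hab
        rw [h', one_mul, mul_one]
      refine ⟨fun H hH => ?_⟩
      rcases hsimple (H.map T.subtype) (by rintro _ ⟨x, _, rfl⟩; exact x.2) (by
        rintro t ht _ ⟨x, hx, rfl⟩
        exact ⟨⟨t, ht⟩ * x * ⟨t, ht⟩⁻¹, hH.conj_mem x hx ⟨t, ht⟩, by simp⟩) with h | h
      · left
        rwa [Subgroup.map_eq_bot_iff_of_injective _ T.subtype_injective] at h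
      · right
        rw [eq_top_iff]
        intro x _
        have : (x : G) ∈ H.map T.subtype := by rw [h]; exact x.2
        obtain ⟨y, hy, hxy⟩ := this
        have : y = x := Subtype.ext hxy
        rwa [← this]
    have : Nontrivial ψ.range := e.symm.toEquiv.nontrivial
    exact IsSimpleGroup.isSimpleGroup_of_surjective e.toMonoidHom e.surjective
  · obtain ⟨a, ha, b, hb, hab⟩ := hna
    intro h
    apply hab
    have h1 := h (e ⟨a, ha⟩) (e ⟨b, hb⟩)
    rw [← map_mul, ← map_mul] at h1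
    exact congrArg Subtype.val (e.injective h1)
  · rw [eq_bot_iff]
    intro γ hγ
    obtain ⟨g, rfl⟩ := hπ γ
    rw [Subgroup.mem_centralizer_iff] at hγ
    rw [Subgroup.mem_bot, hker]
    apply hcent g g.2
    intro t ht s hs
    have h1 := hγ (ψ ⟨t, ht⟩) ⟨⟨t, ht⟩, rfl⟩
    have h2 : π (j ⟨t, ht⟩ * g) = π (g * j ⟨t, ht⟩) := by
      rw [map_mul, map_mul]
      exact h1
    have h3 : π ((j ⟨t, ht⟩ * g)⁻¹ * (g * j ⟨t, ht⟩)) = 1 := by
      rw [map_mul, map_inv, h2, inv_mul_cancel]
    rw [hker] at h3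
    have h4 := h3 s hs
    have h5 : (t * (g : G)) * (((t * (g : G))⁻¹ * ((g : G) * t)) * s) = (g : G) * t * s := by
      group
    have h6 : (((t * (g : G))⁻¹ * ((g : G) * t)) * s) • θ = s • θ := h4
    calc ((g : G) * t * s) • θ = ((t * (g : G)) * (((t * (g : G))⁻¹ * ((g : G) * t)) * s)) • θ := by
          rw [h5]
      _ = (t * (g : G)) • ((((t * (g : G))⁻¹ * ((g : G) * t)) * s) • θ) := mul_smul _ _ _
      _ = (t * (g : G)) • (s • θ) := by rw [h6]
      _ = (t * g * s) • θ := (mul_smul _ _ _).symm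
  · exact Nat.card_congr (MulAut.congr e.symm).toEquiv

section
variable {K E : Type*} [Field K] [Field E] [Algebra K E] [FiniteDimensional K E] [IsGalois K E]

/-- the almost simple group over the fixed field of `S` -/
theorem almost_simple_over (θ : E) (S T : Subgroup (E ≃ₐ[K] E))
    (hstab : ∀ g : E ≃ₐ[K] E, g θ = θ → g ∈ S) (hTS : T ≤ S)
    (hnorm : ∀ s ∈ S, ∀ t ∈ T, s * t * s⁻¹ ∈ T)
    (hsimple : ∀ R : Subgroup (E ≃ₐ[K] E), R ≤ T → (∀ t ∈ T, ∀ x ∈ R, t * x * t⁻¹ ∈ R) →
      R = ⊥ ∨ R = T)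
    (hna : ∃ a ∈ T, ∃ b ∈ T, a * b ≠ b * a) (hmove : ∃ t ∈ T, t θ ≠ θ)
    (hcent : ∀ g ∈ S, (∀ t ∈ T, ∀ s ∈ S, (g * t * s) θ = (t * g * s) θ) →
      ∀ s ∈ S, (g * s) θ = s θ) :
    ∃ F : IntermediateField K E, F ≤ K⟮θ⟯ ∧ Module.finrank K F = S.index ∧
      ∃ T' : Subgroup (minpoly F θ).Gal, T'.Normal ∧ IsSimpleGroup T' ∧
        (¬ ∀ a b : T', a * b = b * a) ∧
        Subgroup.centralizer (T' : Set (minpoly F θ).Gal) = ⊥ ∧
        Nat.card (MulAut T') = Nat.card (MulAut T) := by
  classical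
  obtain ⟨π, hπ, hker⟩ := exists_hom θ S
  refine ⟨fixedField S, ?_, ?_, ?_⟩
  · -- the fixed field is contained in `K⟮θ⟯`
    have h1 : (K⟮θ⟯).fixingSubgroup ≤ S := by
      intro g hg
      apply hstab
      rw [IntermediateField.mem_fixingSubgroup_iff] at hg
      exact hg θ (mem_adjoin_simple_self K θ)
    have h2 : fixedField S ≤ fixedField (K⟮θ⟯).fixingSubgroup := by
      intro x hx
      rw [mem_fixedField_iff] at hx ⊢
      exact fun f hf => hx f (h1 hf)
    rwa [IsGalois.fixedField_fixingSubgroup] at h2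
  · -- degree
    have h1 : Module.finrank (fixedField S) E = Nat.card S := by
      exact finrank_fixedField_eq_card S
    have h2 : Module.finrank K (fixedField S) * Module.finrank (fixedField S) E =
        Module.finrank K E := Module.finrank_mul_finrank K (fixedField S) E
    have h3 : Nat.card (E ≃ₐ[K] E) = Module.finrank K E := IsGalois.card_aut_eq_finrank K E
    have h4 : Nat.card S * S.index = Nat.card (E ≃ₐ[K] E) := S.card_mul_index
    have h5 : 0 < Nat.card S := Nat.card_pos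
    rw [h1, ← h3, ← h4, mul_comm] at h2
    exact Nat.eq_of_mul_eq_mul_left h5 h2
  · exact almost_simple_abs θ S T hTS hnorm hsimple hna hmove hcent π hπ hker

end

end Pool.Agent.Lib.MP_7ab245_nt.Solv.GT
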